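import Pool.Agent.RN.Struct

set_option autoImplicit false

/-! # RN5: the number of letters, the number of rows and the capacities of the nets -/

namespace TW

open Finset

/-- number of the ends of a letter which lie on static rows -/
def pt (st : ℕ → Bool) : Lt → ℕ
  | .leaf r _ => if st r then 1 else 0
  | .br a b _ _ => (if st a then 1 else 0) + (if st b then 1 else 0)

/-- total number of static ends -/
def Net.ports (N : Net) : ℕ := (N.w.map (pt N.st)).sum

/-- total capacity of the young rows -/
def Net.yng (N : Net) : ℕ := ∑ r ∈ range N.R, if N.st r then 0 else N.cap r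

/-- number of static rows -/
def Net.nst (N : Net) : ℕ := ∑ r ∈ range N.R, if N.st r then 1 else 0

theorem rows_eq_sum (N : Net) : N.rows = ∑ r ∈ range N.R, if 0 < N.cap r then 1 else 0 := by
  rw [Net.rows, card_filter]

theorem sum_range_three (f : ℕ → ℕ) (R : ℕ) :
    ∑ i ∈ range (3 * R), f i = ∑ q ∈ range R, (f (3 * q) + f (3 * q + 1) + f (3 * q + 2)) := by
  induction R with
  | zero => rfl
  | succ R ih =>
    rw [show 3 * (R + 1) = 3 * R + 1 + 1 + 1 by ring, sum_range_succ, sum_range_succ,
      sum_range_succ, ih, sum_range_succ]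
    ring

theorem length_ends (N : Net) (c : Bool) : (ends N c).length = N.yng := by
  unfold ends Net.yng
  rw [List.length_flatMap]
  have : ∀ R : ℕ, ((List.range R).map fun r =>
      (if N.st r then [] else List.replicate (N.cap r) (Lt.leaf (3 * r + 1) c)).length).sum
      = ∑ r ∈ range R, if N.st r then 0 else N.cap r := by
    intro R
    induction R with
    | zero => rfl
    | succ R ih =>
      rw [List.range_succ, List.map_append, List.sum_append, ih, sum_range_succ]
      congr 1
      by_cases hs : N.st R = true <;> simp [hs]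
  exact this N.R

theorem length_blk (st : ℕ → Bool) (ℓ : Lt) : (blk st ℓ).length = 1 + 3 * pt st ℓ := by
  cases ℓ with
  | leaf r c => by_cases h : st r = true <;> simp [blk, pt, h]
  | br a b c d => by_cases h : st a = true <;> by_cases h' : st b = true <;> simp [blk, pt, h, h']

theorem length_step (N : Net) :
    N.step.w.length = N.w.length + 3 * N.ports + 2 * N.yng := by
  have hw : N.step.w = ends N true ++ N.w.flatMap (blk N.st) ++ ends N false := rfl
  rw [hw, List.length_append, List.length_append, length_ends, length_ends]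
  have : ∀ w : List Lt, (w.flatMap (blk N.st)).length
      = w.length + 3 * (w.map (pt N.st)).sum := by
    intro w
    induction w with
    | nil => rfl
    | cons ℓ w ih =>
      rw [length_flatMap_blk_cons, ih, length_blk, List.map_cons, List.sum_cons,
        List.length_cons]
      ring
  rw [this N.w]
  unfold Net.ports
  ring

theorem pt_ends (N : Net) (c : Bool) : ((ends N c).map (pt N.step.st)).sum = 0 := by
  apply List.sum_eq_zero
  intro x hx
  obtain ⟨ℓ, hℓ, rfl⟩ := List.mem_map.1 hx
  obtain ⟨r, _, hm⟩ := List.mem_flatMap.1 hℓ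
  by_cases hs : N.st r = true
  · rw [if_pos hs] at hm; simp at hm
  · rw [if_neg hs] at hm
    obtain ⟨_, rfl⟩ := List.mem_replicate.1 hm
    simp [pt, st1, hs]

theorem pt_blk (N : Net) (ℓ : Lt) : ((blk N.st ℓ).map (pt N.step.st)).sum = pt N.st ℓ := by
  cases ℓ with
  | leaf r c => by_cases h : N.st r = true <;> simp [blk, pt, h, st1, st2]
  | br a b c d =>
    by_cases h : N.st a = true <;> by_cases h' : N.st b = true <;>
      simp [blk, pt, h, h', st0, st1, st2]

theorem ports_step (N : Net) : N.step.ports = N.ports := by
  have hw : N.step.w = ends N true ++ N.w.flatMap (blk N.st) ++ ends N false := rfl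
  unfold Net.ports
  rw [hw, List.map_append, List.map_append, List.sum_append, List.sum_append, pt_ends, pt_ends]
  have : ∀ w : List Lt, ((w.flatMap (blk N.st)).map (pt N.step.st)).sum
      = (w.map (pt N.st)).sum := by
    intro w
    induction w with
    | nil => rfl
    | cons ℓ w ih =>
      rw [List.flatMap_cons, List.map_append, List.sum_append, ih, pt_blk, List.map_cons,
        List.sum_cons]
  rw [this N.w]
  ring

theorem yng_step (N : Net) : N.step.yng = 2 * N.yng + 4 * N.nst := by
  have hR : N.step.R = 3 * N.R := rfl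
  unfold Net.yng Net.nst
  rw [hR, sum_range_three, mul_sum, mul_sum, ← sum_add_distrib]
  refine sum_congr rfl fun q _ => ?_
  rw [st0, st1, st2, cap0, cap1, cap2]
  by_cases h : N.st q = true <;> simp [h]

theorem nst_step (N : Net) : N.step.nst = N.nst := by
  have hR : N.step.R = 3 * N.R := rfl
  unfold Net.nst
  rw [hR, sum_range_three]
  refine sum_congr rfl fun q _ => ?_
  rw [st0, st1, st2]
  by_cases h : N.st q = true <;> simp [h]

theorem rows_step (N : Net) : N.step.rows = N.rows + 2 * N.nst := by
  have hR : N.step.R = 3 * N.R := rfl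
  rw [rows_eq_sum, rows_eq_sum]
  unfold Net.nst
  rw [hR, sum_range_three, mul_sum, ← sum_add_distrib]
  refine sum_congr rfl fun q _ => ?_
  rw [cap0, cap1, cap2]
  by_cases h : N.st q = true
  · simp [h]; ring
  · by_cases h' : 0 < N.cap q <;> simp [h, h']

/-! ### one epoch -/

theorem iter_nst (N : Net) (j : ℕ) : (Net.step^[j] N).nst = N.nst := by
  induction j with
  | zero => rfl
  | succ j ih => rw [Function.iterate_succ_apply', nst_step, ih]

theorem iter_ports (N : Net) (j : ℕ) : (Net.step^[j] N).ports = N.ports := by
  induction j with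
  | zero => rfl
  | succ j ih => rw [Function.iterate_succ_apply', ports_step, ih]

theorem iter_yng (N : Net) (j : ℕ) :
    (Net.step^[j] N).yng + 4 * N.nst = 2 ^ j * (N.yng + 4 * N.nst) := by
  induction j with
  | zero => simp
  | succ j ih =>
    rw [Function.iterate_succ_apply', yng_step, iter_nst, pow_succ]
    linarith

theorem iter_rows (N : Net) (j : ℕ) : (Net.step^[j] N).rows = N.rows + 2 * j * N.nst := by
  induction j with
  | zero => simp
  | succ j ih =>
    rw [Function.iterate_succ_apply', rows_step, iter_nst, ih]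
    ring

theorem iter_length (N : Net) (j : ℕ) :
    (Net.step^[j] N).w.length + 2 * (N.yng + 4 * N.nst) + 8 * N.nst * j
      = N.w.length + 3 * j * N.ports + 2 * (2 ^ j * (N.yng + 4 * N.nst)) := by
  induction j with
  | zero => simp
  | succ j ih =>
    have h := iter_yng N j
    rw [Function.iterate_succ_apply', length_step, iter_ports, pow_succ]
    nlinarith

theorem iter_cap (N : Net) (M : ℕ) (h1 : ∀ r, N.st r = true → N.cap r ≤ M)
    (h2 : ∀ r, N.st r = false → N.cap r ≤ 1) (j : ℕ) :
    (∀ r, (Net.step^[j] N).st r = true → (Net.step^[j] N).cap r ≤ M) ∧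
      ∀ r, (Net.step^[j] N).st r = false → (Net.step^[j] N).cap r ≤ 2 ^ j := by
  induction j with
  | zero => exact ⟨h1, by simpa using h2⟩
  | succ j ih =>
    obtain ⟨a, b⟩ := ih
    rw [Function.iterate_succ_apply']
    set V := Net.step^[j] N with hV
    have h2j : 1 ≤ 2 ^ j := Nat.one_le_two_pow
    constructor
    · intro r hr
      obtain ⟨q, hq⟩ := row_cases r
      rcases hq with rfl | rfl | rfl
      · rw [st0] at hr; cases hr
      · rw [st1] at hr; rw [cap1, if_pos hr]; exact a q hr
      · rw [st2] at hr; cases hr
    · intro r hr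
      obtain ⟨q, hq⟩ := row_cases r
      rw [pow_succ]
      rcases hq with rfl | rfl | rfl
      · rw [cap0]; split_ifs <;> omega
      · rw [st1] at hr
        have := b q hr
        rw [cap1, if_neg (by simp [hr])]; omega
      · rw [cap2]; split_ifs <;> omega

theorem pt_le (st : ℕ → Bool) (ℓ : Lt) : pt st ℓ ≤ 2 := by
  cases ℓ with
  | leaf r c => by_cases h : st r = true <;> simp [pt, h]
  | br a b c d => by_cases h : st a = true <;> by_cases h' : st b = true <;> simp [pt, h, h']

theorem ports_le (N : Net) : N.ports ≤ 2 * N.w.length := by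
  unfold Net.ports
  induction N.w with
  | nil => simp
  | cons ℓ w ih =>
    rw [List.map_cons, List.sum_cons, List.length_cons]
    have := pt_le N.st ℓ
    omega

theorem freeze_yng (N : Net) : N.freeze.yng = 0 := by
  unfold Net.yng
  refine sum_eq_zero fun r _ => ?_
  show (if decide (0 < N.cap r) = true then 0 else N.cap r) = 0
  by_cases h : 0 < N.cap r
  · simp [h]
  · simp only [h, decide_false, Bool.false_eq_true, if_false]
    omega

theorem freeze_nst (N : Net) : N.freeze.nst = N.rows := by
  rw [rows_eq_sum]
  unfold Net.nst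
  refine sum_congr rfl fun r _ => ?_
  show (if decide (0 < N.cap r) = true then 1 else 0) = _
  by_cases h : 0 < N.cap r <;> simp [h]

/-- RN5 count -/
theorem count (E : ℕ) : ∃ C : ℕ, ∀ K : ℕ, 1 ≤ K →
    (net K E).w.length ≤ C * K ^ E * 2 ^ K ∧ (net K E).rows ≤ C * K ^ E ∧
      ∀ r, (net K E).cap r ≤ 2 ^ K := by
  induction E with
  | zero =>
    refine ⟨2, fun K hK => ?_⟩
    have hnet : net K 0 = Net.step^[K] Net.base := rfl
    have hn : Net.base.nst = 0 := rfl
    have hy : Net.base.yng = 1 := rfl
    have hp : Net.base.ports = 0 := rfl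
    have hr : Net.base.rows = 1 := rfl
    have hl : Net.base.w.length = 0 := rfl
    rw [hnet]
    refine ⟨?_, ?_, ?_⟩
    · have := iter_length Net.base K
      rw [hn, hy, hp, hl] at this
      simp only [pow_zero, mul_one]
      omega
    · rw [iter_rows, hn, hr]
      simp
    · obtain ⟨a, b⟩ := iter_cap Net.base (2 ^ K) (fun r h => by cases h)
        (fun r _ => by show (if r = 0 then 1 else 0) ≤ 1; split_ifs <;> omega) K
      intro r
      cases h : (Net.step^[K] Net.base).st r with
      | true => exact a r h
      | false => exact b r h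
  | succ E ih =>
    obtain ⟨C, hC⟩ := ih
    refine ⟨15 * C, fun K hK => ?_⟩
    obtain ⟨hl, hr, hc⟩ := hC K hK
    set N := net K E with hN
    have hnet : net K (E + 1) = Net.step^[K] N.freeze := rfl
    rw [hnet]
    have hlf : N.freeze.w.length = N.w.length := rfl
    have hrf : N.freeze.rows = N.rows := rfl
    have hP : N.freeze.ports ≤ 2 * N.w.length := ports_le N.freeze
    have hL := iter_length N.freeze K
    rw [freeze_yng, freeze_nst, hlf, Nat.zero_add] at hL
    have h2K : 1 ≤ 2 ^ K := Nat.one_le_two_pow
    have hKE : K ^ E ≤ K ^ E * K := Nat.le_mul_of_pos_right _ hK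
    refine ⟨?_, ?_, ?_⟩
    · have h1 : (Net.step^[K] N.freeze).w.length
          ≤ N.w.length + 3 * K * (2 * N.w.length) + 8 * (2 ^ K * N.rows) := by
        have : 3 * K * N.freeze.ports ≤ 3 * K * (2 * N.w.length) := Nat.mul_le_mul_left _ hP
        nlinarith
      have h2 : N.w.length + 3 * K * (2 * N.w.length) ≤ 7 * K * (C * K ^ E * 2 ^ K) := by
        have : N.w.length ≤ K * N.w.length := Nat.le_mul_of_pos_left _ hK
        calc N.w.length + 3 * K * (2 * N.w.length) ≤ 7 * K * N.w.length := by nlinarith
          _ ≤ 7 * K * (C * K ^ E * 2 ^ K) := Nat.mul_le_mul_left _ hl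
      have h3 : 8 * (2 ^ K * N.rows) ≤ 8 * (2 ^ K * (C * (K ^ E * K))) := by
        refine Nat.mul_le_mul_left _ (Nat.mul_le_mul_left _ (hr.trans ?_))
        exact Nat.mul_le_mul_left _ hKE
      calc (Net.step^[K] N.freeze).w.length
          ≤ 7 * K * (C * K ^ E * 2 ^ K) + 8 * (2 ^ K * (C * (K ^ E * K))) := by omega
        _ = 15 * C * K ^ (E + 1) * 2 ^ K := by rw [pow_succ]; ring
    · rw [iter_rows, freeze_nst, hrf]
      have : N.rows ≤ K * N.rows := Nat.le_mul_of_pos_left _ hK
      calc N.rows + 2 * K * N.rows ≤ 3 * K * N.rows := by nlinarith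
        _ ≤ 3 * K * (C * K ^ E) := Nat.mul_le_mul_left _ hr
        _ ≤ 15 * C * K ^ (E + 1) := by
          rw [pow_succ]
          nlinarith [Nat.zero_le (C * (K ^ E * K))]
    · obtain ⟨a, b⟩ := iter_cap N.freeze (2 ^ K) (fun r _ => hc r) (fun r h => by
        have h' : decide (0 < N.cap r) = false := h
        have h'' : ¬ 0 < N.cap r := of_decide_eq_false h'
        show N.cap r ≤ 1
        omega) K
      intro r
      cases h : (Net.step^[K] N.freeze).st r with
      | true => exact a r h
      | false => exact b r h

end TW
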